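import Mathlib
import Pool.Agent.U73.LS.Stm2

set_option autoImplicit false

/-!
# Project LS, package LOGM (helper292, for the project of helper73): the mean of the logarithm of
the ratio under the law is `-ζ'(2) / ζ(2)`.
-/

namespace Pool.Agent.U292.LS

open Finset Filter Topology ArithmeticFunction
open scoped ArithmeticFunction

/-- the double family -/
noncomputable def dbl (μ : ℕ → ℝ) (m d : ℕ) : ℝ := vonMangoldt d * ({m | d ∣ m} : Set ℕ).indicator μ m

/-- rows of the double family -/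
theorem row (μ : ℕ → ℝ) (h0 : μ 0 = 0) (m : ℕ) : HasSum (dbl μ m) (Real.log m * μ m) := by
  rcases Nat.eq_zero_or_pos m with rfl | hm
  · have : dbl μ 0 = fun _ => 0 := by
      funext d
      simp [dbl, Set.indicator_apply, h0]
    rw [this]
    simp [h0]
  · have h1 : ∀ d ∉ m.divisors, dbl μ m d = 0 := by
      intro d hd
      have : ¬ d ∣ m := fun h => hd (Nat.mem_divisors.2 ⟨h, hm.ne'⟩)
      simp [dbl, Set.indicator_apply, this]
    have h2 : ∑ d ∈ m.divisors, dbl μ m d = Real.log m * μ m := by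
      rw [← ArithmeticFunction.vonMangoldt_sum, Finset.sum_mul]
      refine Finset.sum_congr rfl fun d hd => ?_
      have : d ∣ m := Nat.dvd_of_mem_divisors hd
      simp [dbl, Set.indicator_apply, this]
    rw [← h2]
    exact hasSum_sum_of_ne_finset_zero h1

/-- sum over the powers of a prime, first form -/
theorem geo1 (p : ℕ) (hp : p.Prime) :
    ∑' k : ℕ, vonMangoldt (p ^ (k + 1)) * (1 / (((p ^ (k + 1) : ℕ) : ℝ) *
      ∏ q ∈ (p ^ (k + 1)).primeFactors, ((q : ℝ) + 1))) = Real.log p / ((p : ℝ) ^ 2 - 1) := by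
  have hp1 : (1 : ℝ) < p := by exact_mod_cast hp.one_lt
  have hp0 : (0 : ℝ) < p := by linarith
  have h1 : ∀ k : ℕ, vonMangoldt (p ^ (k + 1)) * (1 / (((p ^ (k + 1) : ℕ) : ℝ) *
      ∏ q ∈ (p ^ (k + 1)).primeFactors, ((q : ℝ) + 1))) =
      (Real.log p / (p * (p + 1))) * ((p : ℝ)⁻¹) ^ k := by
    intro k
    rw [vonMangoldt_apply_pow (Nat.succ_ne_zero k), vonMangoldt_apply_prime hp,
      Nat.primeFactors_prime_pow (Nat.succ_ne_zero k) hp, Finset.prod_singleton]
    push_cast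
    rw [inv_pow, pow_succ]
    field_simp
  simp_rw [h1]
  rw [tsum_mul_left, tsum_geometric_of_lt_one (by positivity) (inv_lt_one_of_one_lt₀ hp1)]
  have h2 : (p : ℝ) - 1 ≠ 0 := by linarith
  have h3 : (p : ℝ) ^ 2 - 1 ≠ 0 := by nlinarith
  have h4 : 1 - (p : ℝ)⁻¹ ≠ 0 := by
    have := inv_lt_one_of_one_lt₀ hp1
    linarith
  field_simp
  ring

/-- sum over the powers of a prime, second form -/
theorem geo2 (p : ℕ) (hp : p.Prime) :
    ∑' k : ℕ, vonMangoldt (p ^ (k + 1)) / (((p ^ (k + 1) : ℕ) : ℝ) ^ 2) =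
      Real.log p / ((p : ℝ) ^ 2 - 1) := by
  have hp1 : (1 : ℝ) < p := by exact_mod_cast hp.one_lt
  have hp0 : (0 : ℝ) < p := by linarith
  have h1 : ∀ k : ℕ, vonMangoldt (p ^ (k + 1)) / (((p ^ (k + 1) : ℕ) : ℝ) ^ 2) =
      (Real.log p / (p : ℝ) ^ 2) * (((p : ℝ) ^ 2)⁻¹) ^ k := by
    intro k
    rw [vonMangoldt_apply_pow (Nat.succ_ne_zero k), vonMangoldt_apply_prime hp]
    push_cast
    rw [inv_pow, ← pow_mul, ← pow_mul]
    field_simp
    ring
  simp_rw [h1]
  have hp2 : (1 : ℝ) < (p : ℝ) ^ 2 := by nlinarith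
  rw [tsum_mul_left, tsum_geometric_of_lt_one (by positivity) (inv_lt_one_of_one_lt₀ hp2)]
  have h3 : (p : ℝ) ^ 2 - 1 ≠ 0 := by nlinarith
  have h4 : 1 - ((p : ℝ) ^ 2)⁻¹ ≠ 0 := by
    have := inv_lt_one_of_one_lt₀ hp2
    linarith
  field_simp

theorem vsupp (g : ℕ → ℝ) :
    Function.support (fun d : ℕ => vonMangoldt d * g d) ⊆ {n | IsPrimePow n} := by
  intro d hd
  by_contra h
  apply hd
  have : vonMangoldt d = 0 := by
    rw [vonMangoldt_apply]; exact if_neg h
  simp [this]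

theorem t_LOGM : Pool.Agent.U73.LS.S_LOGM := by
  intro μ hμ0 hz hs hdiv hlog
  -- interchange
  have hrow := row μ hz
  have hnn : ∀ x : ℕ × ℕ, 0 ≤ Function.uncurry (dbl μ) x := by
    rintro ⟨m, d⟩
    exact mul_nonneg vonMangoldt_nonneg (Set.indicator_nonneg (fun _ _ => hμ0 _) _)
  have hsum : Summable (Function.uncurry (dbl μ)) := by
    rw [summable_prod_of_nonneg hnn]
    refine ⟨fun m => (hrow m).summable, ?_⟩
    have : (fun m => ∑' d, Function.uncurry (dbl μ) (m, d)) = fun m : ℕ => Real.log m * μ m := by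
      funext m
      exact (hrow m).tsum_eq
    rw [this]
    exact hlog
  have hcol : ∀ d : ℕ, ∑' m, dbl μ m d = vonMangoldt d *
      (1 / ((d : ℝ) * ∏ p ∈ d.primeFactors, ((p : ℝ) + 1))) := by
    intro d
    rcases Nat.eq_zero_or_pos d with rfl | hd
    · simp [dbl]
    · rw [← hdiv d hd]
      exact tsum_mul_left
  have e1 : ∑' m : ℕ, Real.log m * μ m = ∑' d : ℕ, vonMangoldt d *
      (1 / ((d : ℝ) * ∏ p ∈ d.primeFactors, ((p : ℝ) + 1))) := by
    calc ∑' m : ℕ, Real.log m * μ m = ∑' m, ∑' d, dbl μ m d :=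
          tsum_congr fun m => ((hrow m).tsum_eq).symm
      _ = ∑' d, ∑' m, dbl μ m d := hsum.tsum_comm.symm
      _ = _ := tsum_congr hcol
  have hs1 : Summable fun d : ℕ => vonMangoldt d *
      (1 / ((d : ℝ) * ∏ p ∈ d.primeFactors, ((p : ℝ) + 1))) := by
    have := hsum.prod_symm.prod
    refine this.congr fun d => ?_
    exact hcol d
  have e2 : ∑' d : ℕ, vonMangoldt d *
      (1 / ((d : ℝ) * ∏ p ∈ d.primeFactors, ((p : ℝ) + 1))) =
      ∑' p : Nat.Primes, Real.log p / ((p : ℝ) ^ 2 - 1) := by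
    rw [tsum_eq_tsum_primes_of_support_subset_prime_powers hs1 (vsupp _)]
    exact tsum_congr fun p => geo1 p p.2
  have hls : LSeriesSummable (fun n => (vonMangoldt n : ℂ)) 2 :=
    LSeriesSummable_vonMangoldt (by norm_num)
  have hterm : ∀ n : ℕ, LSeries.term (fun n => (vonMangoldt n : ℂ)) 2 n =
      ((vonMangoldt n / (n : ℝ) ^ 2 : ℝ) : ℂ) := by
    intro n
    rcases Nat.eq_zero_or_pos n with rfl | hn
    · simp
    · rw [LSeries.term_of_ne_zero hn.ne']
      push_cast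
      congr 1
      have : (2 : ℂ) = ((2 : ℕ) : ℂ) := by norm_num
      rw [this, Complex.cpow_natCast]
  have hs2 : Summable fun n : ℕ => vonMangoldt n / (n : ℝ) ^ 2 := by
    have h := hls
    unfold LSeriesSummable at h
    have h' : Summable fun n : ℕ => ((vonMangoldt n / (n : ℝ) ^ 2 : ℝ) : ℂ) := h.congr hterm
    exact Complex.summable_ofReal.1 h'
  have e3 : ∑' n : ℕ, vonMangoldt n / (n : ℝ) ^ 2 =
      ∑' p : Nat.Primes, Real.log p / ((p : ℝ) ^ 2 - 1) := by
    have hsupp : Function.support (fun n : ℕ => vonMangoldt n / (n : ℝ) ^ 2) ⊆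
        {n | IsPrimePow n} := by
      have := vsupp (fun n : ℕ => ((n : ℝ) ^ 2)⁻¹)
      simpa only [div_eq_mul_inv] using this
    rw [tsum_eq_tsum_primes_of_support_subset_prime_powers hs2 hsupp]
    exact tsum_congr fun p => geo2 p p.2
  rw [e1, e2, ← e3, Complex.ofReal_tsum]
  rw [← LSeries_vonMangoldt_eq_deriv_riemannZeta_div (s := 2) (by norm_num)]
  unfold LSeries
  exact tsum_congr fun n => (hterm n).symm

end Pool.Agent.U292.LS
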